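import Mathlib

/-!
# No commuting tuple of real `n × n` matrices, `n ≥ 3`, has all non-zero vectors hypercyclic

The real algebra generated by the tuple is commutative.  If every non-zero vector had a dense orbit,
every non-zero element of this algebra would be injective, so the algebra would be a field, finite over
`ℝ`, hence of dimension at most two; but it acts cyclically on `ℝ^n`.
-/

set_option autoImplicit false

open Matrix

namespace Pool.Agent.Results.MP_336050_an.NoMinimalTuple

/-- the orbit of `x` under the tuple `A` -/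
def orbit {m n : ℕ} (A : Fin m → Matrix (Fin n) (Fin n) ℝ) (x : Fin n → ℝ) : Set (Fin n → ℝ) :=
  Set.range fun k : Fin m → ℕ => (List.ofFn fun i => A i ^ k i).prod *ᵥ x

theorem finrank_le_two (K : Type) [Field K] [Algebra ℝ K] [FiniteDimensional ℝ K] :
    Module.finrank ℝ K ≤ 2 := by
  rcases Real.nonempty_algEquiv_or K with h | h
  · obtain ⟨e⟩ := h
    rw [e.toLinearEquiv.finrank_eq]
    simp
  · obtain ⟨e⟩ := h
    rw [e.toLinearEquiv.finrank_eq, Complex.finrank_real_complex]

theorem aux {m n : ℕ} (hn : 3 ≤ n) (A : Fin m → Matrix (Fin n) (Fin n) ℝ)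
    (hA : ∀ i j, A i * A j = A j * A i)
    (hd : ∀ x : Fin n → ℝ, x ≠ 0 → Dense (orbit A x)) : False := by
  classical
  let S : Subalgebra ℝ (Matrix (Fin n) (Fin n) ℝ) := Algebra.adjoin ℝ (Set.range A)
  have hcomm : ∀ a ∈ S, ∀ b ∈ S, a * b = b * a := by
    intro a ha b hb
    have : ∀ a ∈ Set.range A, ∀ b ∈ Set.range A, a * b = b * a := by
      rintro _ ⟨i, rfl⟩ _ ⟨j, rfl⟩
      exact hA i j
    exact Algebra.commute_of_mem_adjoin_of_forall_mem_commute hb (fun c hc =>
      (Algebra.commute_of_mem_adjoin_of_forall_mem_commute ha (fun d hd => (this d hd c hc).symm :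
        ∀ d ∈ Set.range A, Commute c d)).symm)
  have hAS : ∀ i, A i ∈ S := fun i => Algebra.subset_adjoin ⟨i, rfl⟩
  have hprod : ∀ k : Fin m → ℕ, (List.ofFn fun i => A i ^ k i).prod ∈ S := by
    intro k
    apply Subalgebra.list_prod_mem
    intro x hx
    rw [List.mem_ofFn] at hx
    obtain ⟨i, rfl⟩ := hx
    exact pow_mem (hAS i) _
  -- non-zero elements are injective
  have hinj : ∀ a ∈ S, a ≠ 0 → ∀ x : Fin n → ℝ, a *ᵥ x = 0 → x = 0 := by
    intro a ha ha0 x hx
    by_contra hx0
    apply ha0
    have h1 : ∀ y ∈ orbit A x, a *ᵥ y = 0 := by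
      rintro _ ⟨k, rfl⟩
      simp only [mulVec_mulVec]
      rw [hcomm a ha _ (hprod k), ← mulVec_mulVec, hx, mulVec_zero]
    have h2 : ∀ y : Fin n → ℝ, a *ᵥ y = 0 := by
      have hcl : IsClosed {y : Fin n → ℝ | a *ᵥ y = 0} :=
        isClosed_eq (Continuous.matrix_mulVec continuous_const continuous_id) continuous_const
      intro y
      have h3 : closure (orbit A x) ⊆ {y : Fin n → ℝ | a *ᵥ y = 0} :=
        hcl.closure_subset_iff.2 h1
      exact h3 ((hd x hx0).closure_eq ▸ Set.mem_univ y)
    ext i j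
    have := congrFun (h2 (Pi.single j 1)) i
    simpa using this
  let _ : CommRing S := { (inferInstance : Ring S) with
    mul_comm := fun a b => Subtype.ext (hcomm a a.2 b b.2) }
  have : Nonempty (Fin n) := ⟨⟨0, by omega⟩⟩
  haveI : Nontrivial S := inferInstance
  haveI : NoZeroDivisors S := by
    constructor
    intro a b hab
    by_contra hcon
    push Not at hcon
    obtain ⟨ha, hb⟩ := hcon
    apply hb
    have ha' : (a : Matrix (Fin n) (Fin n) ℝ) ≠ 0 := fun h => ha (Subtype.ext h)
    have hab' : (a : Matrix (Fin n) (Fin n) ℝ) * b = 0 := congrArg Subtype.val hab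
    apply Subtype.ext
    ext i j
    have h1 := hinj a a.2 ha' ((b : Matrix (Fin n) (Fin n) ℝ) *ᵥ Pi.single j 1) (by
      rw [mulVec_mulVec, hab', zero_mulVec])
    have := congrFun h1 i
    simpa using this
  haveI : IsDomain S := NoZeroDivisors.to_isDomain S
  haveI : FiniteDimensional ℝ S := inferInstance
  have hrank : Module.finrank ℝ S ≤ 2 := by
    letI : Field S := fieldOfFiniteDimensional ℝ S
    exact finrank_le_two S
  -- the cyclic subspace
  let x : Fin n → ℝ := fun _ => 1
  have hx : x ≠ 0 := by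
    intro h
    have := congrFun h ⟨0, by omega⟩
    simp [x] at this
  let φ : S →ₗ[ℝ] (Fin n → ℝ) :=
    { toFun := fun a => (a : Matrix (Fin n) (Fin n) ℝ) *ᵥ x
      map_add' := fun a b => by simp [add_mulVec]
      map_smul' := fun c a => by simp [smul_mulVec] }
  have hW : LinearMap.range φ = ⊤ := by
    have hcl : IsClosed ((LinearMap.range φ : Submodule ℝ (Fin n → ℝ)) : Set (Fin n → ℝ)) :=
      Submodule.closed_of_finiteDimensional _
    have hsub : orbit A x ⊆ (LinearMap.range φ : Submodule ℝ (Fin n → ℝ)) := by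
      rintro _ ⟨k, rfl⟩
      exact ⟨⟨_, hprod k⟩, rfl⟩
    rw [eq_top_iff]
    intro y _
    have h3 : closure (orbit A x) ⊆ (LinearMap.range φ : Submodule ℝ (Fin n → ℝ)) :=
      hcl.closure_subset_iff.2 hsub
    exact h3 ((hd x hx).closure_eq ▸ Set.mem_univ y)
  have h1 : Module.finrank ℝ (Fin n → ℝ) ≤ Module.finrank ℝ S := by
    have := LinearMap.finrank_range_le φ
    rwa [hW, finrank_top] at this
  rw [Module.finrank_fin_fun] at h1
  omega

/-- For `n ≥ 3`, every finite tuple of pairwise commuting real `n × n` matrices (in particular every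
`n`-tuple) has a non-zero vector whose orbit is not dense in `ℝ^n`. -/
theorem result (n : ℕ) (hn : 3 ≤ n) (m : ℕ) (A : Fin m → Matrix (Fin n) (Fin n) ℝ)
    (hA : ∀ i j, A i * A j = A j * A i) :
    ∃ x : Fin n → ℝ, x ≠ 0 ∧ ¬ Dense (orbit A x) := by
  by_contra h
  push Not at h
  exact aux hn A hA h

end Pool.Agent.Results.MP_336050_an.NoMinimalTuple
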